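import Pool.Agent.Q96.ConeC

/-!
# A minimal upper bound that is not a supremum, under a normal cone

The space is `c`, the space of convergent real sequences, with the cone of all nonnegative
sequences `f` with `f 0 ≤ lim f`; the increasing sequence is minus the indicator of `{m > j} ∪ {∞}`.
-/

set_option autoImplicit false

namespace Pool.Agent.Results.MP_c65f17_an.MinimalNotSupremum

open Q96.ConeC

/-- **Positive answer to Q1.**  There is a real Banach space `X` with a closed cone `K` that is
normal (and has nonempty interior, so it is also generating) and an increasing sequence in `X`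
which has a minimal upper bound but no supremum. -/
theorem result :
    ∃ (X : Type) (_ : NormedAddCommGroup X) (_ : NormedSpace ℝ X) (_ : CompleteSpace X)
      (K : Set X), IsClosedCone K ∧ IsNormalCone K ∧ (interior K).Nonempty ∧
      ∃ x : ℕ → X, Increasing K x ∧ (∃ u : X, MinimalUpperBound K x u) ∧
        ¬ ∃ s : X, Supremum K x s :=
  ⟨C, inferInstance, inferInstance, inferInstance, cone, isClosedCone_cone, isNormalCone_cone,
    interior_nonempty, seq, increasing_seq, ⟨0, minimal_seq⟩,
    fun ⟨s, hs⟩ => no_supremum_seq s hs⟩

end Pool.Agent.Results.MP_c65f17_an.MinimalNotSupremum
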